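import Mathlib

/-! Division by a symbol on a circle: mean values and truncation to a polynomial. -/

namespace Pool.Agent.P.MP_f981b0_an.IS85

open Real Metric Finset Polynomial Filter Topology

section aux
variable {E : Type*} [NormedAddCommGroup E] [NormedSpace ℂ E]

theorem norm_avg_le {f : ℂ → E} {R M : ℝ} (hR : 0 ≤ R) (h : ∀ t : ℂ, ‖t‖ = R → ‖f t‖ ≤ M) :
    ‖circleAverage f 0 R‖ ≤ M := by
  have hp : 0 < 2 * π := by positivity
  have h1 := intervalIntegral.norm_integral_le_of_norm_le_const (a := 0) (b := 2 * π)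
    (f := fun θ => f (circleMap 0 R θ)) (C := M)
    (fun θ _ => h _ (by simp [abs_of_nonneg hR]))
  rw [sub_zero, abs_of_pos hp] at h1
  rw [circleAverage_def, norm_smul, Real.norm_of_nonneg (inv_nonneg.2 hp.le),
    inv_mul_le_iff₀ hp]
  exact h1.trans_eq (mul_comm _ _)

theorem avg_inv_pow {R : ℝ} (hR : R ≠ 0) (l : ℕ) :
    circleAverage (fun t : ℂ => t⁻¹ ^ (l + 1)) 0 R = 0 := by
  rw [circleAverage_eq_circleIntegral hR]
  have h := circleIntegral.integral_sub_zpow_of_ne (n := -((l + 2 : ℕ) : ℤ)) (by omega) 0 0 R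
  have e : (fun z : ℂ => (z - 0)⁻¹ • z⁻¹ ^ (l + 1)) = fun z => (z - 0) ^ (-((l + 2 : ℕ) : ℤ)) := by
    funext z
    rw [zpow_neg, zpow_natCast, sub_zero, smul_eq_mul, ← inv_pow, ← pow_succ']
  rw [e, h, smul_zero]

theorem avg_smul_const [CompleteSpace E] {g : ℂ → ℂ} {R : ℝ} (hg : CircleIntegrable g 0 R)
    (v : E) : circleAverage (fun t => g t • v) 0 R = circleAverage g 0 R • v :=
  ((ContinuousLinearMap.toSpanSingleton ℂ v).restrictScalars ℝ).circleAverage_comp_comm hg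

theorem geo (V : E →L[ℂ] E) (s : ℂ) (x : E) (n : ℕ) :
    ∑ l ∈ range n, s ^ l • (V ^ l) (x - s • V x) = x - s ^ n • (V ^ n) x := by
  induction n with
  | zero => simp
  | succ n ih =>
    rw [sum_range_succ, ih, map_sub, map_smul, smul_sub, smul_smul, ← pow_succ, pow_succ V,
      mul_apply_eq_comp]
    abel

end aux

theorem div {E : Type*} [NormedAddCommGroup E] [NormedSpace ℂ E] [CompleteSpace E]
    (V : E →L[ℂ] E) (one X G : E) {r r2 η ε : ℝ} (hr : 0 < r) (hr2 : r ≤ r2)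
    (hV : Summable fun l : ℕ => (1 / r) ^ l * ‖V ^ l‖) (Ft Gh : ℂ → ℂ) (rem1 rem2 : ℂ → E)
    (hFt : ContinuousOn Ft (sphere 0 r2)) (hGh : ContinuousOn Gh (sphere 0 r2))
    (h1 : ContinuousOn rem1 (sphere 0 r2)) (h2 : DiffContOnCl ℂ rem2 (ball 0 r2))
    (h20 : rem2 0 = 0) (hne : ∀ t : ℂ, ‖t‖ = r2 → Ft t ≠ 0)
    (hη : ∀ t : ℂ, ‖t‖ = r2 → ‖Gh t‖ ≤ η * ‖Ft t‖)
    (hX : ∀ t : ℂ, ‖t‖ = r2 → X = Ft t • one - (rem1 t - t⁻¹ • V (rem1 t)))
    (hG : ∀ t : ℂ, ‖t‖ = r2 → G = Gh t • one - (rem2 t - t⁻¹ • V (rem2 t))) (hε : 0 < ε) :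
    ∃ b : ℂ[X], (∀ l, ‖b.coeff l‖ ≤ η * (1 / r) ^ l) ∧
      ∀ (Y : Type) [NormedAddCommGroup Y] [NormedSpace ℂ Y] [CompleteSpace Y] (L : E →L[ℂ] Y)
        (M : ℝ), (∀ t : ℂ, ‖t‖ = r2 → ‖L (rem1 t)‖ ≤ M) →
        ‖L (aeval V b X - G)‖ ≤ η * M + ε * ‖L‖ := by
  have hR : 0 < r2 := hr.trans_le hr2
  have hs : ∀ t : ℂ, t ∈ sphere (0 : ℂ) r2 ↔ ‖t‖ = r2 := fun t => mem_sphere_zero_iff_norm
  set φ : ℂ → ℂ := fun t => Gh t / Ft t with hφ
  have cφ : ContinuousOn φ (sphere 0 r2) := hGh.div hFt fun t ht => hne t ((hs t).1 ht)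
  have nφ : ∀ t : ℂ, ‖t‖ = r2 → ‖φ t‖ ≤ η := fun t ht => by
    rw [hφ, norm_div, div_le_iff₀ (norm_pos_iff.2 (hne t ht))]
    exact hη t ht
  have hη0 : 0 ≤ η := (norm_nonneg _).trans (nφ r2 (by simp [abs_of_pos hR]))
  have ci : ContinuousOn (fun t : ℂ => t⁻¹) (sphere 0 r2) :=
    continuousOn_id.inv₀ fun t ht h => by
      have := (hs t).1 ht
      rw [show t = 0 from h, norm_zero] at this
      exact hR.ne this
  have ni : ∀ t : ℂ, ‖t‖ = r2 → ∀ l : ℕ, ‖t⁻¹ ^ l‖ ≤ (1 / r) ^ l := fun t ht l => by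
    rw [norm_pow, norm_inv, ht, one_div]
    exact pow_le_pow_left₀ (inv_nonneg.2 hR.le) (inv_anti₀ hr hr2) l
  have c2 : ContinuousOn rem2 (sphere 0 r2) :=
    h2.continuousOn.mono (by rw [closure_ball _ hR.ne']; exact sphere_subset_closedBall)
  have cz : ContinuousOn (fun t => φ t • rem1 t - rem2 t) (sphere 0 r2) := (cφ.smul h1).sub c2
  obtain ⟨C, hC⟩ := (isCompact_sphere (0 : ℂ) r2).exists_bound_of_continuousOn cz
  have hC0 : 0 ≤ C := (norm_nonneg _).trans (hC r2 ((hs _).2 (by simp [abs_of_pos hR])))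
  obtain ⟨n, hn⟩ : ∃ n : ℕ, (1 / r) ^ (n + 1) * ‖V ^ (n + 1)‖ * C ≤ ε := by
    have h := (hV.tendsto_atTop_zero.comp (tendsto_add_atTop_nat 1)).mul_const C
    rw [zero_mul] at h
    exact (h.eventually (ge_mem_nhds hε)).exists
  set c : ℕ → ℂ := fun l => circleAverage (fun t => φ t * t⁻¹ ^ l) 0 r2 with hc
  have nc : ∀ l, ‖c l‖ ≤ η * (1 / r) ^ l := fun l => norm_avg_le hR.le fun t ht => by
    rw [norm_mul]
    exact mul_le_mul (nφ t ht) (ni t ht l) (norm_nonneg _) hη0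
  refine ⟨∑ l ∈ range (n + 1), monomial l (c l), fun l => ?_, fun Y _ _ _ L M hM => ?_⟩
  · rw [finsetSum_coeff]
    simp only [coeff_monomial, sum_ite_eq', mem_range]
    split_ifs
    · exact nc l
    · rw [norm_zero]; positivity
  have i1 : ∀ l : ℕ, CircleIntegrable (fun t => φ t * t⁻¹ ^ l) 0 r2 := fun l =>
    (cφ.mul (ci.pow l)).circleIntegrable hR.le
  have j0 : ∀ l : ℕ, ContinuousOn (fun t : ℂ => t⁻¹ ^ l) (sphere 0 r2) := fun l => ci.pow l
  have j1 : ∀ l : ℕ, ContinuousOn (fun t : ℂ => (φ t * t⁻¹ ^ l) • (V ^ l) X) (sphere 0 r2) :=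
    fun l => (cφ.mul (ci.pow l)).smul continuousOn_const
  have j2 : ∀ l : ℕ, ContinuousOn (fun t : ℂ => t⁻¹ ^ l • (V ^ l) G) (sphere 0 r2) :=
    fun l => (ci.pow l).smul continuousOn_const
  have e1 : aeval V (∑ l ∈ range (n + 1), monomial l (c l)) X =
      circleAverage (fun t => ∑ l ∈ range (n + 1), (φ t * t⁻¹ ^ l) • (V ^ l) X) 0 r2 := by
    rw [circleAverage_fun_sum fun l _ => (j1 l).circleIntegrable hR.le, map_sum,
      _root_.sum_apply]
    refine sum_congr rfl fun l _ => ?_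
    rw [avg_smul_const (i1 l), aeval_monomial, ← Algebra.smul_def, _root_.smul_apply]
  have e2 : G = circleAverage (fun t => ∑ l ∈ range (n + 1), t⁻¹ ^ l • (V ^ l) G) 0 r2 := by
    rw [circleAverage_fun_sum fun l _ => (j2 l).circleIntegrable hR.le, sum_range_succ',
      sum_eq_zero fun l _ => by
        rw [avg_smul_const ((j0 (l + 1)).circleIntegrable hR.le), avg_inv_pow hR.ne', zero_smul]]
    simp [circleAverage_const]
  have e3 : circleAverage rem2 0 r2 = 0 := by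
    rw [DiffContOnCl.circleAverage (by rwa [abs_of_pos hR]), h20]
  set Φ : ℂ → E := fun t => -(φ t • rem1 t) +
    t⁻¹ ^ (n + 1) • (V ^ (n + 1)) (φ t • rem1 t - rem2 t) with hΦ
  have cΦ : ContinuousOn Φ (sphere 0 r2) := (cφ.smul h1).neg.add
    ((ci.pow _).smul ((V ^ (n + 1)).continuous.comp_continuousOn cz))
  have e4 : aeval V (∑ l ∈ range (n + 1), monomial l (c l)) X - G = circleAverage Φ 0 r2 := by
    rw [e1]
    conv_lhs => rw [e2]
    rw [← circleAverage_fun_sub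
      ((continuousOn_finsetSum _ fun l _ => j1 l).circleIntegrable hR.le)
      ((continuousOn_finsetSum _ fun l _ => j2 l).circleIntegrable hR.le),
      ← add_zero (circleAverage Φ 0 r2), ← e3,
      ← circleAverage_fun_add (cΦ.circleIntegrable hR.le) (c2.circleIntegrable hR.le)]
    refine circleAverage_congr_sphere fun t ht => ?_
    rw [abs_of_pos hR, hs] at ht
    have k : φ t • X - G = -((φ t • rem1 t - rem2 t) - t⁻¹ • V (φ t • rem1 t - rem2 t)) := by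
      have k0 : φ t * Ft t = Gh t := div_mul_cancel₀ _ (hne t ht)
      rw [hX t ht, hG t ht, smul_sub, smul_smul, k0, map_sub, map_smul, smul_sub, smul_sub,
        smul_comm (φ t) t⁻¹]
      abel
    have k2 := geo V t⁻¹ (φ t • rem1 t - rem2 t) (n + 1)
    have k3 : ∑ l ∈ range (n + 1), (φ t * t⁻¹ ^ l) • (V ^ l) X -
        ∑ l ∈ range (n + 1), t⁻¹ ^ l • (V ^ l) G =
        ∑ l ∈ range (n + 1), t⁻¹ ^ l • (V ^ l) (φ t • X - G) := by
      rw [← sum_sub_distrib]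
      refine sum_congr rfl fun l _ => ?_
      rw [map_sub, map_smul, smul_sub, smul_smul, mul_comm]
    show _ - _ = Φ t + rem2 t
    rw [k3, k]
    simp only [map_neg, smul_neg, sum_neg_distrib]
    rw [k2, hΦ]
    beta_reduce
    abel
  rw [e4]
  have e5 := (L.restrictScalars ℝ).circleAverage_comp_comm (cΦ.circleIntegrable hR.le)
  rw [show L (circleAverage Φ 0 r2) = circleAverage (L.restrictScalars ℝ ∘ Φ) 0 r2 from e5.symm]
  refine norm_avg_le hR.le fun t ht => ?_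
  show ‖L (Φ t)‖ ≤ _
  rw [hΦ]
  beta_reduce
  rw [map_add, map_neg, map_smul]
  refine (norm_add_le _ _).trans (add_le_add ?_ ?_)
  · rw [norm_neg, norm_smul]
    exact mul_le_mul (nφ t ht) (hM t ht) (norm_nonneg _) hη0
  · refine (L.le_opNorm _).trans ?_
    rw [mul_comm]
    refine mul_le_mul_of_nonneg_right (le_trans ?_ hn) (norm_nonneg _)
    rw [norm_smul, mul_assoc]
    exact mul_le_mul (ni t ht _) (((V ^ (n + 1)).le_opNorm _).trans
      (mul_le_mul_of_nonneg_left (hC t ((hs t).2 ht)) (norm_nonneg _))) (norm_nonneg _)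
      (by positivity)

end Pool.Agent.P.MP_f981b0_an.IS85
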